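import Pool.Agent.Q148.SM.Stm

set_option autoImplicit false

namespace Pool.Agent.Q102.SM

open Pool.Agent.Q148.SM Finset

theorem case0_D (hL : S_LOGD) {N : ℕ} (d : Fin N → ℂ) (hS : SS d ≤ N) {t r : ℝ}
    (hr0 : 0 ≤ r) (hrt : r ≤ t) (h1 : t * ‖sg d‖ ≤ 1 / 4) (h2 : t * Real.sqrt N ≤ 1 / 4) :
    ‖D d (r : ℂ) - 1‖ ≤ 7 / 16 := by
  have hsN : 0 ≤ Real.sqrt N := Real.sqrt_nonneg _
  have hd : ∀ k, ‖d k‖ ≤ Real.sqrt N := by
    intro k
    apply Real.le_sqrt_of_sq_le
    refine le_trans ?_ hS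
    exact Finset.single_le_sum (f := fun k => ‖d k‖ ^ 2) (fun i _ => by positivity) (mem_univ k)
  have hr : ‖(r : ℂ)‖ = r := by rw [Complex.norm_real, Real.norm_of_nonneg hr0]
  have hrs : r * Real.sqrt N ≤ 1 / 4 := le_trans (mul_le_mul_of_nonneg_right hrt hsN) h2
  have hrσ : r * ‖sg d‖ ≤ 1 / 4 := le_trans (mul_le_mul_of_nonneg_right hrt (norm_nonneg _)) h1
  obtain ⟨E, hE, hEn⟩ := hL N d (r : ℂ) (fun k => by
    rw [hr]
    have := mul_le_mul_of_nonneg_left (hd k) hr0
    linarith)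
  rw [hE]
  rw [hr] at hEn
  have hE16 : ‖E‖ ≤ 1 / 16 := by
    refine le_trans hEn ?_
    have h3 : r ^ 2 * SS d ≤ r ^ 2 * N := mul_le_mul_of_nonneg_left hS (by positivity)
    have h4 : r ^ 2 * N = (r * Real.sqrt N) ^ 2 := by
      rw [mul_pow, Real.sq_sqrt (by positivity)]
    have h5 : (r * Real.sqrt N) ^ 2 ≤ (1 / 4) ^ 2 := pow_le_pow_left₀ (by positivity) hrs 2
    rw [h4] at h3
    norm_num at h5 ⊢
    linarith
  have hz : ‖-((r : ℂ) * sg d) + E‖ ≤ 5 / 16 := by
    refine le_trans (norm_add_le _ _) ?_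
    rw [norm_neg, norm_mul, hr]
    linarith
  set z : ℂ := -((r : ℂ) * sg d) + E with hzdef
  have h6 := Complex.norm_exp_sub_one_sub_id_le (x := z) (by linarith)
  have h7 : ‖Complex.exp z - 1‖ ≤ ‖Complex.exp z - 1 - z‖ + ‖z‖ := by
    have : Complex.exp z - 1 = (Complex.exp z - 1 - z) + z := by ring
    calc ‖Complex.exp z - 1‖ = ‖(Complex.exp z - 1 - z) + z‖ := by rw [← this]
      _ ≤ _ := norm_add_le _ _
  have h8 : ‖z‖ ^ 2 ≤ (5 / 16) ^ 2 := pow_le_pow_left₀ (norm_nonneg _) hz 2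
  norm_num at h8
  linarith

theorem case0_I (hL : S_LOGD) {N : ℕ} (d : Fin N → ℂ) (I : ℂ → ℂ) (hP : Prim d I)
    (hS : SS d ≤ N) {t : ℝ}
    (ht0 : 0 ≤ t) (h1 : t * ‖sg d‖ ≤ 1 / 4) (h2 : t * Real.sqrt N ≤ 1 / 4) :
    9 / 16 * t ≤ ‖I (t : ℂ)‖ := by
  have hmv : ‖(I (t : ℂ) - (t : ℂ)) - (I 0 - 0)‖ ≤ 7 / 16 * ‖(t : ℂ) - 0‖ := by
    apply Convex.norm_image_sub_le_of_norm_hasDerivWithin_le (f := fun z : ℂ => I z - z)
      (f' := fun z => D d z - 1)
      (s := segment ℝ (0 : ℂ) (t : ℂ))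
    · intro z hz
      exact ((hP.der z).sub (hasDerivAt_id z)).hasDerivWithinAt
    · intro z hz
      rw [segment_eq_image] at hz
      obtain ⟨θ, ⟨hθ0, hθ1⟩, rfl⟩ := hz
      have e1 : ((1 - θ) • (0 : ℂ) + θ • (t : ℂ)) = ((θ * t : ℝ) : ℂ) := by
        simp only [Complex.real_smul, smul_zero, zero_add]
        push_cast
        ring
      show ‖D d ((1 - θ) • (0 : ℂ) + θ • (t : ℂ)) - 1‖ ≤ _
      rw [e1]
      exact case0_D hL d hS (mul_nonneg hθ0 ht0) (by nlinarith) h1 h2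
    · exact convex_segment _ _
    · exact left_mem_segment _ _ _
    · exact right_mem_segment _ _ _
  rw [hP.zero, sub_zero, sub_zero, sub_zero, Complex.norm_real, Real.norm_of_nonneg ht0] at hmv
  have h3 : ‖(t : ℂ)‖ - ‖I (t : ℂ)‖ ≤ ‖I (t : ℂ) - (t : ℂ)‖ := by
    have := norm_sub_norm_le (t : ℂ) (I (t : ℂ))
    rw [norm_sub_rev] at this
    exact this
  rw [Complex.norm_real, Real.norm_of_nonneg ht0] at h3
  linarith

theorem t_CASE0 (hL : S_LOGD) (hPr : S_PRIM) (hFa : S_FACTS) : S_CASE0 := by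
  intro N a w p hN hC hSS hs
  have hNpos : (0 : ℝ) < N := by exact_mod_cast hN
  obtain ⟨f1, f2, f3, f4, -, -⟩ := hFa N a w p hN hC hSS
  obtain ⟨I, hI, hIp⟩ := hPr N a w p hC
  set d := dd a w with hd
  set s : ℝ := ‖sg d‖ with hsdef
  set l : ℝ := ell a w with hl
  set q : ℝ := Real.sqrt N with hq
  have hq0 : 0 < q := Real.sqrt_pos.2 hNpos
  have hq2 : q ^ 2 = N := Real.sq_sqrt hNpos.le
  have hq1 : 1 ≤ q := by
    rw [hq, Real.one_le_sqrt]; exact_mod_cast hN
  have ha := hC.ha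
  have hs1 : a * N / 2 < s := lt_of_lt_of_le f1 (Complex.re_le_norm _)
  have hs0 : 0 < s := lt_trans (by positivity) hs1
  have hs40 : s < 40 * q := by
    have : s ^ 2 < (40 * q) ^ 2 := by nlinarith
    exact lt_of_pow_lt_pow_left₀ 2 (by positivity) this
  have haq : a * q ≤ 80 := by
    have h1 : a * q ^ 2 < 80 * q := by rw [hq2]; linarith
    have h2 : (a * q) * q < 80 * q := by nlinarith
    exact (lt_of_mul_lt_mul_right h2 hq0.le).le
  set t : ℝ := min a (min (1 / (4 * s)) (1 / (4 * q))) with ht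
  have ht0 : 0 < t := by
    rw [ht]; exact lt_min ha (lt_min (by positivity) (by positivity))
  have ht1 : t * s ≤ 1 / 4 := by
    have : t ≤ 1 / (4 * s) := le_trans (min_le_right _ _) (min_le_left _ _)
    calc t * s ≤ 1 / (4 * s) * s := mul_le_mul_of_nonneg_right this hs0.le
      _ = 1 / 4 := by field_simp
  have ht2 : t * q ≤ 1 / 4 := by
    have : t ≤ 1 / (4 * q) := le_trans (min_le_right _ _) (min_le_right _ _)
    calc t * q ≤ 1 / (4 * q) * q := mul_le_mul_of_nonneg_right this hq0.le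
      _ = 1 / 4 := by field_simp
  have hIt : 9 / 16 * t ≤ ‖I (t : ℂ)‖ := case0_I hL d I hI hSS.le ht0.le ht1 ht2
  have hexpl : 1 ≤ Real.exp l := Real.one_le_exp f3
  have hN1 : (1 : ℝ) ≤ N := by exact_mod_cast hN
  have hpt : ((N : ℝ) + 1) * Real.exp l * (9 / 16 * t) ≤ ‖p ((a : ℂ) - (t : ℂ))‖ := by
    rw [hIp]
    exact mul_le_mul_of_nonneg_left hIt (by positivity)
  rcases eq_or_lt_of_le (min_le_left a (min (1 / (4 * s)) (1 / (4 * q)))) with hta | hta
  · exfalso
    have hta' : t = a := hta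
    rw [hta', sub_self] at hpt
    have h1 := hC.h0
    have h2 : 2 * 1 * (9 / 16 * a) ≤ ((N : ℝ) + 1) * Real.exp l * (9 / 16 * a) := by
      apply mul_le_mul_of_nonneg_right _ (by positivity)
      apply mul_le_mul _ hexpl (by norm_num) (by positivity)
      linarith
    linarith
  · have hta' : t < a := hta
    have htq : 1 ≤ t * (160 * q) := by
      have h1 : 1 / (160 * q) ≤ t := by
        rw [ht]
        have h2 : 1 / (160 * q) ≤ min (1 / (4 * s)) (1 / (4 * q)) := by
          apply le_min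
          · apply one_div_le_one_div_of_le (by positivity); linarith
          · apply one_div_le_one_div_of_le (by positivity); linarith
        have h3 : min a (min (1 / (4 * s)) (1 / (4 * q))) = min (1 / (4 * s)) (1 / (4 * q)) := by
          apply min_eq_right
          by_contra hc
          push Not at hc
          rw [min_eq_left hc.le] at hta
          exact lt_irrefl _ hta
        rw [h3]; exact h2
      calc (1 : ℝ) = 1 / (160 * q) * (160 * q) := by field_simp
        _ ≤ _ := mul_le_mul_of_nonneg_right h1 (by positivity)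
    set b : ℝ := a - t with hb
    have hb0 : 0 < b := by linarith
    have hba : b ≤ a := by linarith
    have e1 : (a : ℂ) - (t : ℂ) = (b : ℂ) := by rw [hb]; push_cast; ring
    rw [e1] at hpt
    have hbb := hC.hb (b : ℂ)
    have hcn : ‖cen w‖ ≤ s / N + Real.sqrt (8 * l / N) := by
      have h1 : cen w = (cen w - ((a : ℂ) - (starRingEnd ℂ) (sg d) / N)) +
          ((a : ℂ) - (starRingEnd ℂ) (sg d) / N) := by ring
      calc ‖cen w‖ = ‖(cen w - ((a : ℂ) - (starRingEnd ℂ) (sg d) / N)) +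
          ((a : ℂ) - (starRingEnd ℂ) (sg d) / N)‖ := by rw [← h1]
        _ ≤ _ := norm_add_le _ _
        _ ≤ Real.sqrt (8 * l / N) + s / N := add_le_add f4 f2
        _ = _ := by ring
    -- `q ‖c‖ ≤ 40 + √8 √l`
    set u : ℝ := Real.sqrt l with hu
    have hu0 : 0 ≤ u := Real.sqrt_nonneg _
    have hu2 : u ^ 2 = l := Real.sq_sqrt f3
    have hsq : Real.sqrt (8 * l / N) * q ≤ 283 / 100 * u := by
      have h1 : Real.sqrt (8 * l / N) ≤ 283 / 100 * u / q := by
        rw [Real.sqrt_le_left (by positivity), div_pow, hq2]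
        apply div_le_div_of_nonneg_right _ hNpos.le
        rw [← hu2]
        nlinarith
      calc Real.sqrt (8 * l / N) * q ≤ 283 / 100 * u / q * q := mul_le_mul_of_nonneg_right h1 hq0.le
        _ = _ := by field_simp
    have hcq : ‖cen w‖ * q ≤ 40 + 283 / 100 * u := by
      have h1 : ‖cen w‖ * q ≤ (s / N + Real.sqrt (8 * l / N)) * q :=
        mul_le_mul_of_nonneg_right hcn hq0.le
      have h2 : s / N * q ≤ 40 := by
        have : s / N * q = s / q := by rw [← hq2]; field_simp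
        rw [this, div_le_iff₀ hq0]; exact hs40.le
      nlinarith
    have hbq : b * q ≤ 80 := le_trans (mul_le_mul_of_nonneg_right hba hq0.le) haq
    have hbq0 : 0 ≤ b * q := by positivity
    have hcq0 : 0 ≤ ‖cen w‖ * q := by positivity
    have hexpo : ((N : ℝ) + 1) / 2 * (‖(b : ℂ)‖ ^ 2 - 2 * ((starRingEnd ℂ) (b : ℂ) * cen w).re) ≤
        12800 + 4528 / 10 * u := by
      have hnb : ‖(b : ℂ)‖ = b := by rw [Complex.norm_real, Real.norm_of_nonneg hb0.le]
      have h1 : -(b * ‖cen w‖) ≤ ((starRingEnd ℂ) (b : ℂ) * cen w).re := by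
        have := Complex.abs_re_le_norm ((starRingEnd ℂ) (b : ℂ) * cen w)
        rw [norm_mul, Complex.norm_conj, hnb] at this
        exact (abs_le.1 this).1
      have h2 : ‖(b : ℂ)‖ ^ 2 - 2 * ((starRingEnd ℂ) (b : ℂ) * cen w).re ≤
          b ^ 2 + 2 * (b * ‖cen w‖) := by rw [hnb]; linarith
      have h3 : ((N : ℝ) + 1) / 2 * (‖(b : ℂ)‖ ^ 2 - 2 * ((starRingEnd ℂ) (b : ℂ) * cen w).re) ≤
          ((N : ℝ) + 1) / 2 * (b ^ 2 + 2 * (b * ‖cen w‖)) :=
        mul_le_mul_of_nonneg_left h2 (by positivity)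
      have h4 : ((N : ℝ) + 1) / 2 * (b ^ 2 + 2 * (b * ‖cen w‖)) ≤
          N * (b ^ 2 + 2 * (b * ‖cen w‖)) := by
        apply mul_le_mul_of_nonneg_right _ (by positivity)
        linarith
      have h5 : (N : ℝ) * (b ^ 2 + 2 * (b * ‖cen w‖)) =
          (b * q) ^ 2 + 2 * ((b * q) * (‖cen w‖ * q)) := by rw [← hq2]; ring
      have h6 : (b * q) ^ 2 ≤ 80 ^ 2 := pow_le_pow_left₀ hbq0 hbq 2
      have h7 : (b * q) * (‖cen w‖ * q) ≤ 80 * (40 + 283 / 100 * u) :=
        mul_le_mul hbq hcq hcq0 (by norm_num)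
      rw [h5] at h4
      linarith
    have hfin : ((N : ℝ) + 1) * Real.exp l * (9 / 16 * t) ≤ Real.exp (12800 + 4528 / 10 * u) :=
      le_trans hpt (le_trans hbb (Real.exp_le_exp.2 hexpo))
    -- conclude
    have h1 : q * Real.exp l ≤ 285 * Real.exp (12800 + 4528 / 10 * u) := by
      have h2 : q * Real.exp l * (9 / 16) ≤
          160 * (((N : ℝ) + 1) * Real.exp l * (9 / 16 * t)) := by
        have h3 : q ≤ ((N : ℝ) + 1) * (t * 160) := by
          have h4 : q * 1 ≤ q * (t * (160 * q)) := mul_le_mul_of_nonneg_left htq hq0.le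
          have h5 : q * (t * (160 * q)) = N * (t * 160) := by rw [← hq2]; ring
          rw [h5] at h4
          have : (N : ℝ) * (t * 160) ≤ ((N : ℝ) + 1) * (t * 160) := by
            apply mul_le_mul_of_nonneg_right _ (by positivity)
            linarith
          linarith
        have h6 := mul_le_mul_of_nonneg_right h3 (show 0 ≤ Real.exp l * (9 / 16) by positivity)
        linarith
      have h7 : 0 < Real.exp (12800 + 4528 / 10 * u) := Real.exp_pos _
      linarith
    have h8 : q ≤ 285 * Real.exp (12800 + 4528 / 10 * u - l) := by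
      rw [Real.exp_sub, mul_div_assoc', le_div_iff₀ (Real.exp_pos _)]
      exact h1
    have h9 : 12800 + 4528 / 10 * u - l ≤ 64060 := by
      rw [← hu2]; nlinarith [sq_nonneg (u - 2264 / 10)]
    have h10 : (285 : ℝ) ≤ Real.exp 32 := by
      have h11 := Real.add_one_le_exp (16 : ℝ)
      have h12 : Real.exp 32 = Real.exp 16 * Real.exp 16 := by
        rw [← Real.exp_add]; norm_num
      rw [h12]
      nlinarith
    have h13 : q ≤ Real.exp 64300 := by
      refine le_trans h8 ?_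
      have h14 : 285 * Real.exp (12800 + 4528 / 10 * u - l) ≤ Real.exp 32 * Real.exp 64060 :=
        mul_le_mul h10 (Real.exp_le_exp.2 h9) (Real.exp_pos _).le (Real.exp_pos _).le
      refine le_trans h14 ?_
      rw [← Real.exp_add]
      exact Real.exp_le_exp.2 (by norm_num)
    rw [← hq2]
    have h15 : q ^ 2 ≤ Real.exp 64300 ^ 2 := pow_le_pow_left₀ hq0.le h13 2
    refine le_trans h15 (le_of_eq ?_)
    rw [← Real.exp_nat_mul]
    norm_num

end Pool.Agent.Q102.SM
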