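import Pool.Agent.Q148.SM.Stm

set_option autoImplicit false

namespace Pool.Agent.Q102.SM

open Pool.Agent.Q148.SM

theorem phi_der (y : ℝ) (hy : 0 < y) :
    HasDerivAt (fun y : ℝ => 3 * y - 2 - 1 / y - 4 * Real.log y) ((3 * y - 1) * (y - 1) / y ^ 2) y := by
  have h1 : HasDerivAt (fun y : ℝ => 3 * y - 2 - 1 / y - 4 * Real.log y)
      (3 * 1 - (-(y ^ 2)⁻¹) - 4 * y⁻¹) y := by
    have ha : HasDerivAt (fun y : ℝ => 3 * y - 2) (3 * 1) y :=
      ((hasDerivAt_id y).const_mul 3).sub_const 2
    have hb : HasDerivAt (fun y : ℝ => 1 / y) (-(y ^ 2)⁻¹) y := by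
      simpa only [one_div] using hasDerivAt_inv hy.ne'
    have hc : HasDerivAt (fun y : ℝ => 4 * Real.log y) (4 * y⁻¹) y :=
      (Real.hasDerivAt_log hy.ne').const_mul 4
    exact (ha.sub hb).sub hc
  convert h1 using 1
  field_simp
  ring

theorem phi_main (y : ℝ) (hy : 1 / 4 ≤ y) : 0 ≤ 3 * y - 2 - 1 / y - 4 * Real.log y := by
  set f : ℝ → ℝ := fun y : ℝ => 3 * y - 2 - 1 / y - 4 * Real.log y with hf
  have hcont : ∀ s : Set ℝ, (∀ x ∈ s, 0 < x) → ContinuousOn f s := fun s hs x hx =>
    (phi_der x (hs x hx)).continuousAt.continuousWithinAt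
  have hder : ∀ x : ℝ, 0 < x → deriv f x = (3 * x - 1) * (x - 1) / x ^ 2 := fun x hx =>
    (phi_der x hx).deriv
  have f1 : f 1 = 0 := by simp [hf]; norm_num
  have f4 : 0 ≤ f (1 / 4) := by
    have h4 : Real.log (1 / 4) = - (2 * Real.log 2) := by
      rw [show (1 / 4 : ℝ) = (2 ^ 2)⁻¹ by norm_num, Real.log_inv, Real.log_pow]; push_cast; ring
    have := Real.log_two_gt_d9
    simp only [hf]
    rw [h4]
    norm_num
    linarith
  rcases le_total 1 y with h1 | h1
  · have hmono : MonotoneOn f (Set.Ici 1) := by
      apply monotoneOn_of_deriv_nonneg (convex_Ici 1)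
      · exact hcont _ (fun x hx => lt_of_lt_of_le one_pos hx)
      · intro x hx
        rw [interior_Ici] at hx
        exact (phi_der x (lt_trans one_pos hx)).differentiableAt.differentiableWithinAt
      · intro x hx
        rw [interior_Ici] at hx
        have hx' : 1 < x := hx
        rw [hder x (by linarith)]
        apply div_nonneg _ (by positivity)
        apply mul_nonneg <;> linarith
    have := hmono (Set.mem_Ici.2 le_rfl) (Set.mem_Ici.2 h1) h1
    rw [f1] at this
    exact this
  · rcases le_total (1 / 3) y with h3 | h3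
    · have hanti : AntitoneOn f (Set.Icc (1 / 3) 1) := by
        apply antitoneOn_of_deriv_nonpos (convex_Icc _ _)
        · exact hcont _ (fun x hx => lt_of_lt_of_le (by norm_num) hx.1)
        · intro x hx
          rw [interior_Icc] at hx
          exact (phi_der x (lt_trans (by norm_num) hx.1)).differentiableAt.differentiableWithinAt
        · intro x hx
          rw [interior_Icc] at hx
          have hx' : 1 / 3 < x := hx.1
          have hx'' : x < 1 := hx.2
          rw [hder x (by linarith)]
          apply div_nonpos_of_nonpos_of_nonneg _ (by positivity)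
          apply mul_nonpos_of_nonneg_of_nonpos <;> linarith
      have := hanti ⟨h3, h1⟩ ⟨by norm_num, le_rfl⟩ h1
      rw [f1] at this
      exact this
    · have hmono : MonotoneOn f (Set.Icc (1 / 4) (1 / 3)) := by
        apply monotoneOn_of_deriv_nonneg (convex_Icc _ _)
        · exact hcont _ (fun x hx => lt_of_lt_of_le (by norm_num) hx.1)
        · intro x hx
          rw [interior_Icc] at hx
          exact (phi_der x (lt_trans (by norm_num) hx.1)).differentiableAt.differentiableWithinAt
        · intro x hx
          rw [interior_Icc] at hx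
          have hx' : 1 / 4 < x := hx.1
          have hx'' : x < 1 / 3 := hx.2
          rw [hder x (by linarith)]
          apply div_nonneg _ (by positivity)
          apply mul_nonneg_of_nonpos_of_nonpos <;> linarith
      have := hmono ⟨le_rfl, by norm_num⟩ ⟨hy, h3⟩ hy
      exact le_trans f4 this

theorem t_PHI : S_PHI := by
  constructor
  · intro y hy
    have hy0 : 0 < y := by linarith
    have h := phi_main y hy
    have e : (y - 1) ^ 2 / y = y - 2 + 1 / y := by
      field_simp
      ring
    rw [e]
    linarith
  · intro y hy h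
    have l1 := Real.log_two_gt_d9
    have l2 := Real.log_two_lt_d9
    constructor
    · by_contra hc
      push Not at hc
      have h1 := Real.log_le_sub_one_of_pos (show (0 : ℝ) < 2 * y by positivity)
      rw [Real.log_mul (by norm_num) hy.ne'] at h1
      linarith
    · by_contra hc
      push Not at hc
      have h1 := Real.log_le_sub_one_of_pos (show (0 : ℝ) < y / 2 by positivity)
      rw [Real.log_div hy.ne' (by norm_num)] at h1
      linarith

end Pool.Agent.Q102.SM
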