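import Pool.Agent.Q148.SM.Stm

set_option autoImplicit false

namespace Pool.Agent.Q102.SM

open Pool.Agent.Q148.SM Finset

/-- `A = conj σ / N` and the exponent of F5 -/
theorem exp_id {N : ℕ} (hN : 1 ≤ N) (s t : ℂ) :
    -2 * (t * s).re + ‖t‖ ^ 2 * N =
      N * (‖t - (starRingEnd ℂ) s / N‖ ^ 2 - (‖s‖ / N) ^ 2) := by
  have hN0 : (N : ℝ) ≠ 0 := by positivity
  have h1 : ‖t - (starRingEnd ℂ) s / N‖ ^ 2 = (t.re - s.re / N) ^ 2 + (t.im + s.im / N) ^ 2 := by
    rw [← Complex.normSq_eq_norm_sq, Complex.normSq_apply]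
    have e1 : (t - (starRingEnd ℂ) s / N).re = t.re - s.re / N := by
      rw [Complex.sub_re, Complex.div_natCast_re, Complex.conj_re]
    have e2 : (t - (starRingEnd ℂ) s / N).im = t.im + s.im / N := by
      rw [Complex.sub_im, Complex.div_natCast_im, Complex.conj_im]; ring
    rw [e1, e2]; ring
  have h2 : ‖t‖ ^ 2 = t.re ^ 2 + t.im ^ 2 := by
    rw [← Complex.normSq_eq_norm_sq, Complex.normSq_apply]; ring
  have h3 : ‖s‖ ^ 2 = s.re ^ 2 + s.im ^ 2 := by
    rw [← Complex.normSq_eq_norm_sq, Complex.normSq_apply]; ring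
  rw [h1, h2, div_pow, h3, Complex.mul_re]
  field_simp
  ring

theorem norm_A {N : ℕ} (s : ℂ) : ‖(starRingEnd ℂ) s / (N : ℂ)‖ = ‖s‖ / N := by
  rw [norm_div, Complex.norm_conj, Complex.norm_natCast]

/-- F5 in the form we need -/
theorem D_le {N : ℕ} (h5 : S_F5) (hN : 1 ≤ N) (d : Fin N → ℂ) (hS : SS d ≤ N) (t : ℂ) :
    ‖D d t‖ ^ 2 ≤ Real.exp (N * (‖t - (starRingEnd ℂ) (sg d) / N‖ ^ 2 - (‖sg d‖ / N) ^ 2)) := by
  refine le_trans (h5 N d t) (Real.exp_le_exp.2 ?_)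
  rw [← exp_id hN (sg d) t]
  have : ‖t‖ ^ 2 * SS d ≤ ‖t‖ ^ 2 * N := mul_le_mul_of_nonneg_left hS (by positivity)
  linarith

theorem le_exp_half {x y : ℝ} (h : x ^ 2 ≤ Real.exp (2 * y)) : x ≤ Real.exp y := by
  have : Real.exp (2 * y) = Real.exp y ^ 2 := by
    rw [two_mul, Real.exp_add]; ring
  rw [this] at h
  exact le_of_sq_le_sq h (Real.exp_pos _).le

theorem t_SEGA (h5 : S_F5) : S_SEGA := by
  intro N d I T hN hP hS hs hT
  have hNpos : (0 : ℝ) < N := by exact_mod_cast hN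
  set A : ℂ := (starRingEnd ℂ) (sg d) / N with hA
  set x : ℝ := ‖sg d‖ ^ 2 / N with hx
  have hx1600 : 1600 ≤ x := by
    rw [hx, le_div_iff₀ hNpos]; exact hs
  have hb : ∀ t ∈ Metric.closedBall A (‖sg d‖ / (2 * N)), ‖D d t‖ ≤ Real.exp (-(3 / 8 * x)) := by
    intro t ht
    rw [mem_closedBall_iff_norm] at ht
    apply le_exp_half
    refine le_trans (D_le h5 hN d hS t) (Real.exp_le_exp.2 ?_)
    have h1 : ‖t - (starRingEnd ℂ) (sg d) / N‖ ^ 2 ≤ (‖sg d‖ / (2 * N)) ^ 2 :=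
      pow_le_pow_left₀ (norm_nonneg _) ht 2
    have h2 : (N : ℝ) * (‖t - (starRingEnd ℂ) (sg d) / N‖ ^ 2 - (‖sg d‖ / N) ^ 2) ≤
        N * ((‖sg d‖ / (2 * N)) ^ 2 - (‖sg d‖ / N) ^ 2) := by
      apply mul_le_mul_of_nonneg_left _ hNpos.le
      linarith
    refine le_trans h2 (le_of_eq ?_)
    rw [hx]
    field_simp
    ring
  have hmv : ‖I T - I A‖ ≤ Real.exp (-(3 / 8 * x)) * ‖T - A‖ := by
    apply Convex.norm_image_sub_le_of_norm_hasDerivWithin_le (f' := D d)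
      (s := Metric.closedBall A (‖sg d‖ / (2 * N)))
    · intro t ht
      exact (hP.der t).hasDerivWithinAt
    · exact hb
    · exact convex_closedBall _ _
    · exact Metric.mem_closedBall_self (by positivity)
    · rw [mem_closedBall_iff_norm]; exact hT
  rw [norm_mul]
  have h3 : ‖sg d‖ * ‖I T - I A‖ ≤ ‖sg d‖ * (Real.exp (-(3 / 8 * x)) * (‖sg d‖ / (2 * N))) := by
    apply mul_le_mul_of_nonneg_left _ (norm_nonneg _)
    refine le_trans hmv ?_
    exact mul_le_mul_of_nonneg_left hT (Real.exp_pos _).le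
  refine le_trans h3 ?_
  have h4 : ‖sg d‖ * (Real.exp (-(3 / 8 * x)) * (‖sg d‖ / (2 * N))) =
      x / 2 * Real.exp (-(3 / 8 * x)) := by
    rw [hx]; field_simp
  rw [h4, Real.exp_neg]
  have h5' : (3 / 8 * x) ^ 3 / (Nat.factorial 3 : ℝ) ≤ Real.exp (3 / 8 * x) :=
    Real.pow_div_factorial_le_exp _ (by positivity) 3
  have h6 : (Nat.factorial 3 : ℝ) = 6 := by norm_num [Nat.factorial]
  rw [h6] at h5'
  have h7 : 1000 * x ≤ Real.exp (3 / 8 * x) := by
    refine le_trans ?_ h5'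
    have : 1600 ^ 2 ≤ x ^ 2 := pow_le_pow_left₀ (by norm_num) hx1600 2
    nlinarith [mul_le_mul_of_nonneg_left this (show 0 ≤ x by positivity)]
  rw [← div_eq_mul_inv, div_le_div_iff₀ (Real.exp_pos _) (by norm_num)]
  linarith

theorem ex_bound {x : ℝ} (hx : 1600 ≤ x) : x * Real.exp (-(x / 122)) ≤ 1 / 10 := by
  have h5' : (x / 122) ^ 8 / (Nat.factorial 8 : ℝ) ≤ Real.exp (x / 122) :=
    Real.pow_div_factorial_le_exp _ (by positivity) 8
  have h6 : (Nat.factorial 8 : ℝ) = 40320 := by norm_num [Nat.factorial]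
  rw [h6] at h5'
  have h7 : 10 * x ≤ Real.exp (x / 122) := by
    refine le_trans ?_ h5'
    have h8 : (1600 : ℝ) ^ 7 ≤ x ^ 7 := pow_le_pow_left₀ (by norm_num) hx 7
    have h9 : (x / 122) ^ 8 / 40320 = x * (x ^ 7 / (122 ^ 8 * 40320)) := by
      field_simp
    rw [h9]
    have h10 : (10 : ℝ) ≤ x ^ 7 / (122 ^ 8 * 40320) := by
      rw [le_div_iff₀ (by positivity)]
      refine le_trans ?_ h8
      norm_num
    nlinarith
  rw [Real.exp_neg, ← div_eq_mul_inv, div_le_div_iff₀ (Real.exp_pos _) (by norm_num)]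
  linarith

theorem t_SEGB (h5 : S_F5) : S_SEGB := by
  intro N d I a l c hN hP hS hs hl hrho hc hl2 hF
  have hNpos : (0 : ℝ) < N := by exact_mod_cast hN
  set A : ℂ := (starRingEnd ℂ) (sg d) / N with hA
  set x : ℝ := ‖sg d‖ ^ 2 / N with hx
  set α : ℝ := ‖sg d‖ / N with hα
  have hα0 : 0 ≤ α := by positivity
  have hx1600 : 1600 ≤ x := by
    rw [hx, le_div_iff₀ hNpos]; exact hs
  have hxα : x = N * α ^ 2 := by rw [hx, hα]; field_simp
  have hlx : x / 32 ≤ l := by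
    refine le_trans (le_of_eq ?_) hl2
    rw [hx, div_div]; ring
  set v : ℝ := Real.sqrt (l / N) with hv
  have hv0 : 0 ≤ v := Real.sqrt_nonneg _
  have hv2 : N * v ^ 2 = l := by
    rw [hv, Real.sq_sqrt (by positivity)]; field_simp
  have hαv : α ^ 2 ≤ 32 * v ^ 2 := by
    have : N * α ^ 2 ≤ N * (32 * v ^ 2) := by
      rw [← hxα]
      linarith
    exact le_of_mul_le_mul_left this hNpos
  have hαv' : α ≤ 57 / 10 * v := by
    have : α ^ 2 ≤ (57 / 10 * v) ^ 2 := by nlinarith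
    exact le_of_sq_le_sq this (by positivity)
  have hsq8 : Real.sqrt (8 * l / N) ≤ 29 / 10 * v := by
    rw [Real.sqrt_le_left (by positivity)]
    have : 8 * l / N = 8 * v ^ 2 := by rw [← hv2]; field_simp
    rw [this]
    nlinarith
  have hcv : ‖c‖ ≤ 86 / 10 * v := by
    linarith
  -- the bound on the segment
  have hb : ∀ t ∈ segment ℝ A (a : ℂ), ‖D d t‖ ≤ Real.exp (-(x / 122)) := by
    intro t ht
    rw [segment_eq_image] at ht
    obtain ⟨θ, ⟨hθ0, hθ1⟩, rfl⟩ := ht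
    -- `t = (1 - θ) A + θ a = a - (1 - θ) (a - A)`
    have e1 : ((1 - θ) • A + θ • (a : ℂ)) = (a : ℂ) - ((1 - θ : ℝ) : ℂ) * ((a : ℂ) - A) := by
      simp only [Complex.real_smul]
      push_cast
      ring
    have e2 : ((1 - θ) • A + θ • (a : ℂ)) - A = (θ : ℂ) * ((a : ℂ) - A) := by
      simp only [Complex.real_smul]
      push_cast
      ring
    have n2 : ‖((1 - θ) • A + θ • (a : ℂ)) - A‖ = θ * ‖(a : ℂ) - A‖ := by
      rw [e2, norm_mul, Complex.norm_real, Real.norm_of_nonneg hθ0]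
    have n1 : ‖((1 - θ : ℝ) : ℂ) * ((a : ℂ) - A)‖ = (1 - θ) * ‖(a : ℂ) - A‖ := by
      rw [norm_mul, Complex.norm_real, Real.norm_of_nonneg (by linarith)]
    apply le_exp_half
    show ‖D d ((1 - θ) • A + θ • (a : ℂ))‖ ^ 2 ≤ _
    rcases le_total ((1 - θ) * ‖(a : ℂ) - A‖) (α / 120) with hcase | hcase
    · -- (A)
      rw [e1]
      refine le_trans (hF _) (Real.exp_le_exp.2 ?_)
      set h : ℂ := ((1 - θ : ℝ) : ℂ) * ((a : ℂ) - A) with hh
      have hn : ‖h‖ ≤ 1 / 21 * v := by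
        rw [n1]; linarith
      have hre : -(‖h‖ * ‖c‖) ≤ ((starRingEnd ℂ) h * c).re := by
        have := Complex.abs_re_le_norm ((starRingEnd ℂ) h * c)
        rw [norm_mul, Complex.norm_conj] at this
        exact (abs_le.1 this).1
      have h1 : ‖h‖ ^ 2 ≤ (1 / 21 * v) ^ 2 := pow_le_pow_left₀ (norm_nonneg _) hn 2
      have h2 : ‖h‖ * ‖c‖ ≤ (1 / 21 * v) * (86 / 10 * v) :=
        mul_le_mul hn hcv (norm_nonneg _) (by positivity)
      have h3 : (N : ℝ) * ‖h‖ ^ 2 ≤ N * (1 / 21 * v) ^ 2 := mul_le_mul_of_nonneg_left h1 hNpos.le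
      have h4 : (N : ℝ) * (‖h‖ * ‖c‖) ≤ N * ((1 / 21 * v) * (86 / 10 * v)) :=
        mul_le_mul_of_nonneg_left h2 hNpos.le
      have h5' : -((N : ℝ) * (‖h‖ * ‖c‖)) ≤ N * ((starRingEnd ℂ) h * c).re := by
        have := mul_le_mul_of_nonneg_left hre hNpos.le
        linarith
      have h6 : (N : ℝ) * (1 / 21 * v) ^ 2 = 1 / 441 * l := by rw [← hv2]; ring
      have h7 : (N : ℝ) * ((1 / 21 * v) * (86 / 10 * v)) = 86 / 210 * l := by rw [← hv2]; ring
      rw [h6] at h3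
      rw [h7] at h4
      have h8 : x / 61 ≤ x / 32 := by
        apply div_le_div_of_nonneg_left (by linarith) (by norm_num) (by norm_num)
      linarith
    · -- (B)
      refine le_trans (D_le h5 hN d hS _) (Real.exp_le_exp.2 ?_)
      rw [n2]
      have h1 : θ * ‖(a : ℂ) - A‖ ≤ 119 / 120 * α := by linarith
      have h2 : (θ * ‖(a : ℂ) - A‖) ^ 2 ≤ (119 / 120 * α) ^ 2 :=
        pow_le_pow_left₀ (by positivity) h1 2
      have h3 : (N : ℝ) * ((θ * ‖(a : ℂ) - A‖) ^ 2 - α ^ 2) ≤ N * ((119 / 120 * α) ^ 2 - α ^ 2) := by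
        apply mul_le_mul_of_nonneg_left _ hNpos.le
        linarith
      refine le_trans h3 ?_
      have h4 : (N : ℝ) * ((119 / 120 * α) ^ 2 - α ^ 2) = (119 ^ 2 / 120 ^ 2 - 1) * x := by
        rw [hxα]; ring
      rw [h4]
      nlinarith
  have hmv : ‖I a - I A‖ ≤ Real.exp (-(x / 122)) * ‖(a : ℂ) - A‖ := by
    apply Convex.norm_image_sub_le_of_norm_hasDerivWithin_le (f' := D d)
      (s := segment ℝ A (a : ℂ))
    · intro t ht
      exact (hP.der t).hasDerivWithinAt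
    · exact hb
    · exact convex_segment _ _
    · exact left_mem_segment _ _ _
    · exact right_mem_segment _ _ _
  rw [norm_mul]
  have h3 : ‖sg d‖ * ‖I a - I A‖ ≤ ‖sg d‖ * (Real.exp (-(x / 122)) * α) := by
    apply mul_le_mul_of_nonneg_left _ (norm_nonneg _)
    refine le_trans hmv ?_
    exact mul_le_mul_of_nonneg_left hrho (Real.exp_pos _).le
  refine le_trans h3 ?_
  have h4 : ‖sg d‖ * (Real.exp (-(x / 122)) * α) = x * Real.exp (-(x / 122)) := by
    rw [hx, hα]; field_simp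
  rw [h4]
  exact ex_bound hx1600

end Pool.Agent.Q102.SM
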